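import Pool.Agent.TH126.KG.Model
import Pool.Agent.TH185.Def

/-!
The Frobenius structure of `y ^ 2 + y = x ^ (2 g + 1)` over the algebraic closure of `𝔽_2`.
-/

open scoped WithZero Matrix Polynomial IntermediateField TensorProduct
open WithZero

set_option linter.unusedSectionVars false

namespace Pool.Agent.TH126.KG

open Pool.Agent.TH185.C Pool.Agent.TH185

variable (𝕜 : Type) [Field 𝕜] (g : ℕ) [CharP 𝕜 2] [IsAlgClosed 𝕜]

/-- Frobenius on the constants, extended to `𝕜(x)` -/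
noncomputable def rψ : RatFunc 𝕜 ≃+* RatFunc 𝕜 :=
  IsFractionRing.ringEquivOfRingEquiv (A := 𝕜[X]) (B := 𝕜[X])
    (Polynomial.mapEquiv (frobeniusEquiv 𝕜 2))

theorem rψ_poly (p : 𝕜[X]) : rψ 𝕜 (algebraMap 𝕜[X] (RatFunc 𝕜) p) =
    algebraMap 𝕜[X] (RatFunc 𝕜) (p.map (frobenius 𝕜 2)) := by
  rw [rψ, IsFractionRing.ringEquivOfRingEquiv_algebraMap]
  rfl

theorem rψ_C (c : 𝕜) : rψ 𝕜 (algebraMap 𝕜 (RatFunc 𝕜) c) = algebraMap 𝕜 (RatFunc 𝕜) (c ^ 2) := by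
  rw [IsScalarTower.algebraMap_apply 𝕜 𝕜[X] (RatFunc 𝕜), Polynomial.algebraMap_apply,
    rψ_poly, Algebra.algebraMap_self_apply, Polynomial.map_C, frobenius_def,
    IsScalarTower.algebraMap_apply 𝕜 𝕜[X] (RatFunc 𝕜), Polynomial.algebraMap_apply,
    Algebra.algebraMap_self_apply]

theorem rψ_X : rψ 𝕜 RatFunc.X = RatFunc.X := by
  rw [← RatFunc.algebraMap_X, rψ_poly, Polynomial.map_X]

theorem rψ_aF : rψ 𝕜 (aF 𝕜 g) = aF 𝕜 g := by
  rw [aF, rψ_poly, Polynomial.map_pow, Polynomial.map_X]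

theorem map_aP : (aP 𝕜 g).map (rψ 𝕜 : RatFunc 𝕜 →+* RatFunc 𝕜) = aP 𝕜 g := by
  rw [aP, Polynomial.map_add, Polynomial.map_sub, Polynomial.map_pow, Polynomial.map_X,
    Polynomial.map_C]
  congr 3
  exact rψ_aF 𝕜 g

/-- the Frobenius automorphism of the function field -/
noncomputable def kψ : AK 𝕜 g ≃+* AK 𝕜 g :=
  AdjoinRoot.mapRingEquiv (rψ 𝕜) (aP 𝕜 g) (aP 𝕜 g) (by rw [map_aP])

theorem kψ_of (a : RatFunc 𝕜) : kψ 𝕜 g (algebraMap (RatFunc 𝕜) (AK 𝕜 g) a) =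
    algebraMap (RatFunc 𝕜) (AK 𝕜 g) (rψ 𝕜 a) := by
  rw [kψ, AdjoinRoot.coe_mapRingEquiv]
  exact AdjoinRoot.map_of _ _ _ _ a

theorem kψ_x : kψ 𝕜 g (ax 𝕜 g) = ax 𝕜 g := by
  rw [ax, kψ_of, rψ_X]

theorem kψ_y : kψ 𝕜 g (ay 𝕜 g) = ay 𝕜 g := by
  rw [kψ, AdjoinRoot.coe_mapRingEquiv]
  exact AdjoinRoot.map_root _ _ _ _

theorem kψ_const (c : 𝕜) : kψ 𝕜 g (algebraMap 𝕜 (AK 𝕜 g) c) = algebraMap 𝕜 (AK 𝕜 g) (c ^ 2) := by
  rw [IsScalarTower.algebraMap_apply 𝕜 (RatFunc 𝕜) (AK 𝕜 g), kψ_of, rψ_C,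
    ← IsScalarTower.algebraMap_apply 𝕜 (RatFunc 𝕜) (AK 𝕜 g)]

theorem pow_fix {K : Type} [Field K] (ψ : K ≃+* K) {m : ℕ} {z : K} (h : (ψ ^ m) z = z) (n : ℕ) :
    (ψ ^ (m * n)) z = z := by
  induction n with
  | zero => rfl
  | succ n ih =>
    rw [Nat.mul_succ, pow_add]
    change (ψ ^ (m * n)) ((ψ ^ m) z) = z
    rw [h, ih]

/-- the elements which are fixed by a power of `ψ` -/
noncomputable def fixSub {K : Type} [Field K] (ψ : K ≃+* K) : Subfield K where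
  carrier := {z | ∃ m : ℕ, 0 < m ∧ (ψ ^ m) z = z}
  mul_mem' := by
    rintro a b ⟨m, hm, ha⟩ ⟨n, hn, hb⟩
    refine ⟨m * n, Nat.mul_pos hm hn, ?_⟩
    rw [map_mul, pow_fix ψ ha, mul_comm m n, pow_fix ψ hb]
  one_mem' := ⟨1, one_pos, map_one _⟩
  add_mem' := by
    rintro a b ⟨m, hm, ha⟩ ⟨n, hn, hb⟩
    refine ⟨m * n, Nat.mul_pos hm hn, ?_⟩
    rw [map_add, pow_fix ψ ha, mul_comm m n, pow_fix ψ hb]
  zero_mem' := ⟨1, one_pos, map_zero _⟩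
  neg_mem' := by
    rintro a ⟨m, hm, ha⟩
    exact ⟨m, hm, by rw [map_neg, ha]⟩
  inv_mem' := by
    rintro a ⟨m, hm, ha⟩
    exact ⟨m, hm, by rw [map_inv₀, ha]⟩

theorem kψ_pow_const (m : ℕ) (c : 𝕜) :
    (kψ 𝕜 g ^ m) (algebraMap 𝕜 (AK 𝕜 g) c) = algebraMap 𝕜 (AK 𝕜 g) (c ^ 2 ^ m) := by
  induction m with
  | zero => rw [pow_zero, pow_zero, pow_one]; rfl
  | succ m ih =>
    rw [pow_succ']
    change kψ 𝕜 g ((kψ 𝕜 g ^ m) (algebraMap 𝕜 (AK 𝕜 g) c)) = _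
    rw [ih, kψ_const, ← pow_mul, pow_succ]

theorem exists_pow_fix (c : AlgebraicClosure (ZMod 2)) : ∃ m : ℕ, 0 < m ∧ c ^ 2 ^ m = c := by
  have hc : IsIntegral (ZMod 2) c := (Algebra.IsAlgebraic.isAlgebraic c).isIntegral
  have h1 : FiniteDimensional (ZMod 2) (ZMod 2)⟮c⟯ := IntermediateField.adjoin.finiteDimensional hc
  have h2 : Finite (ZMod 2)⟮c⟯ := Module.finite_of_finite (ZMod 2)
  have h3 : Fintype (ZMod 2)⟮c⟯ := Fintype.ofFinite _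
  have h4 : Fintype.card (ZMod 2)⟮c⟯ = 2 ^ Module.finrank (ZMod 2) (ZMod 2)⟮c⟯ := by
    rw [Module.card_eq_pow_finrank (K := ZMod 2), ZMod.card]
  refine ⟨Module.finrank (ZMod 2) (ZMod 2)⟮c⟯, Module.finrank_pos, ?_⟩
  have h5 := FiniteField.pow_card (⟨c, IntermediateField.mem_adjoin_simple_self (ZMod 2) c⟩ :
    (ZMod 2)⟮c⟯)
  rw [h4] at h5
  have h6 := congrArg Subtype.val h5
  exact h6

/-- the Frobenius structure -/
noncomputable def frobStr : FrobeniusStructure (AlgebraicClosure (ZMod 2))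
    (AK (AlgebraicClosure (ZMod 2)) g) 2 where
  frob := kψ (AlgebraicClosure (ZMod 2)) g
  frob_const := kψ_const (AlgebraicClosure (ZMod 2)) g
  locallyFinite := by
    set F := AlgebraicClosure (ZMod 2) with hF
    have hc : ∀ c : F, algebraMap F (AK F g) c ∈ fixSub (kψ F g) := by
      intro c
      obtain ⟨m, hm, h⟩ := exists_pow_fix c
      exact ⟨m, hm, by rw [kψ_pow_const, h]⟩
    let S : IntermediateField F (AK F g) := (fixSub (kψ F g)).toIntermediateField hc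
    have hx : ax F g ∈ S := ⟨1, one_pos, by rw [pow_one]; exact kψ_x F g⟩
    have hy : ay F g ∈ S := ⟨1, one_pos, by rw [pow_one]; exact kψ_y F g⟩
    have hle : F⟮ax F g⟯ ≤ S := IntermediateField.adjoin_simple_le_iff.2 hx
    intro z
    obtain ⟨a, ha, b, hb, rfl⟩ := span_AK F g z
    exact add_mem (hle ha) (mul_mem (hle hb) hy)

end Pool.Agent.TH126.KG
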