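import Pool.Agent.TH126.KG.Poly

/-!
The curves `y ^ 2 + y = x ^ (2 g + 1)` in characteristic two.
-/

open scoped WithZero Matrix Polynomial IntermediateField
open WithZero

set_option linter.unusedSectionVars false

namespace Pool.Agent.TH126.KG

open Pool.Agent.TH185.C

variable {𝕜 K : Type} [Field 𝕜] [IsAlgClosed 𝕜] [Field K] [Algebra 𝕜 K]

/-- `K = 𝕜(x, y)`, `y ^ 2 + y = x ^ (2 g + 1)`, characteristic two -/
structure AS (x y : K) (g : ℕ) (σ : K ≃ₐ[𝕜] K) : Prop where
  curve : IsCurve 𝕜 K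
  two : (2 : K) = 0
  dx : KaehlerDifferential.D 𝕜 K x ≠ 0
  eq : y ^ 2 + y = x ^ (2 * g + 1)
  span : ∀ z : K, ∃ a ∈ 𝕜⟮x⟯, ∃ b ∈ 𝕜⟮x⟯, z = a + b * y
  inv_x : σ x = x
  inv_y : σ y = y + 1

/-- the action of an automorphism on the points -/
noncomputable def pcomap (σ : K ≃ₐ[𝕜] K) (v : Point 𝕜 K) : Point 𝕜 K where
  val := v.val.comap σ.toRingEquiv.toRingHom
  surj := by
    intro z
    obtain ⟨w, hw⟩ := v.surj z
    refine ⟨σ.symm w, ?_⟩
    change v.val (σ (σ.symm w)) = z
    rw [σ.apply_symm_apply, hw]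
  const := by
    intro c hc
    change v.val (σ (algebraMap 𝕜 K c)) = 1
    rw [σ.commutes, v.const c hc]

theorem pcomap_val (σ : K ≃ₐ[𝕜] K) (v : Point 𝕜 K) (z : K) :
    (pcomap σ v).val z = v.val (σ z) := rfl

namespace AS

variable {x y : K} {g : ℕ} {σ : K ≃ₐ[𝕜] K} (H : AS x y g σ)

include H

theorem trans : Transcendental 𝕜 x := (sep_of_D_ne H.curve H.dx).1

theorem x_ne : x ≠ 0 := ne_zero_of_transcendental H.trans

theorem fix_aeval (p : 𝕜[X]) : σ (Polynomial.aeval x p) = Polynomial.aeval x p := by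
  have h := Polynomial.aeval_algHom_apply σ.toAlgHom x p
  have h2 : σ.toAlgHom x = x := H.inv_x
  rw [h2] at h
  exact h.symm

theorem fix {z : K} (hz : z ∈ 𝕜⟮x⟯) : σ z = z := by
  obtain ⟨p, q, -, -, rfl⟩ := (mem_adj_iff H.trans).1 hz
  rw [map_div₀, H.fix_aeval, H.fix_aeval]

theorem y_notMem : y ∉ 𝕜⟮x⟯ := by
  intro h
  have h1 := H.fix h
  rw [H.inv_y] at h1
  exact one_ne_zero (left_eq_add.1 h1.symm)

theorem coeff_zero {a b : K} (ha : a ∈ 𝕜⟮x⟯) (hb : b ∈ 𝕜⟮x⟯) (h : a + b * y = 0) :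
    a = 0 ∧ b = 0 := by
  have hb0 : b = 0 := by
    by_contra hb0
    apply H.y_notMem
    have : y = -a / b := by
      field_simp
      linear_combination h
    rw [this]
    exact div_mem (neg_mem ha) hb
  rw [hb0, zero_mul, add_zero] at h
  exact ⟨h, hb0⟩

theorem finrank_eq : Module.finrank 𝕜⟮x⟯ K = 2 := by
  have hli : LinearIndependent 𝕜⟮x⟯ ![(1 : K), y] := by
    rw [LinearIndependent.pair_iff]
    intro s t hst
    have h1 := H.coeff_zero s.2 t.2 (by
      rw [Algebra.smul_def, Algebra.smul_def, mul_one] at hst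
      exact hst)
    exact ⟨Subtype.ext h1.1, Subtype.ext h1.2⟩
  have hsp : ⊤ ≤ Submodule.span 𝕜⟮x⟯ (Set.range ![(1 : K), y]) := by
    intro z _
    obtain ⟨a, ha, b, hb, rfl⟩ := H.span z
    have h1 : a + b * y = (⟨a, ha⟩ : 𝕜⟮x⟯) • (1 : K) + (⟨b, hb⟩ : 𝕜⟮x⟯) • y := by
      rw [Algebra.smul_def, Algebra.smul_def, mul_one]; rfl
    rw [h1]
    refine add_mem (Submodule.smul_mem _ _ (Submodule.subset_span ⟨0, rfl⟩))
      (Submodule.smul_mem _ _ (Submodule.subset_span ⟨1, rfl⟩))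
  let b := Module.Basis.mk hli hsp
  rw [Module.finrank_eq_card_basis b, Fintype.card_fin]

theorem val_y_le {v : Point 𝕜 K} (hv : v.val x ≤ 1) : v.val y ≤ 1 := by
  by_contra hy
  rw [not_le] at hy
  have h1 : v.val y < v.val (y ^ 2) := by
    rw [map_pow, pow_two]
    exact lt_mul_of_one_lt_right (zero_lt_one.trans hy) hy
  have h2 := Valuation.map_add_eq_of_lt_left v.val h1
  rw [H.eq, map_pow, map_pow] at h2
  have h3 : v.val x ^ (2 * g + 1) ≤ 1 := pow_le_one' hv _
  have h4 : 1 < v.val y ^ 2 := one_lt_pow₀ hy two_ne_zero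
  rw [h2] at h3
  exact absurd h4 (not_lt.2 h3)

theorem val_y_inf {v : Point 𝕜 K} (hv : 1 < v.val x) : v.val y ^ 2 = v.val x ^ (2 * g + 1) := by
  have h0 : 1 < v.val x ^ (2 * g + 1) := one_lt_pow₀ hv (by omega)
  have hy : 1 < v.val y := by
    by_contra hy
    rw [not_lt] at hy
    have h1 : v.val (y ^ 2 + y) ≤ 1 := by
      refine Valuation.map_add_le _ ?_ hy
      rw [map_pow]
      exact pow_le_one' hy _
    rw [H.eq, map_pow] at h1
    exact absurd h0 (not_lt.2 h1)
  have h1 : v.val y < v.val (y ^ 2) := by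
    rw [map_pow, pow_two]
    exact lt_mul_of_one_lt_right (zero_lt_one.trans hy) hy
  have h2 := Valuation.map_add_eq_of_lt_left v.val h1
  rw [H.eq, map_pow, map_pow] at h2
  exact h2.symm

theorem mem_ring {z : K} (hz : ∀ v : Point 𝕜 K, v.val x ≤ 1 → v.val z ≤ 1) :
    ∃ p q : 𝕜[X], z = Polynomial.aeval x p + Polynomial.aeval x q * y := by
  obtain ⟨a, ha, b, hb, rfl⟩ := H.span z
  have hb' : b = (a + b * y) + σ (a + b * y) := by
    rw [map_add, map_mul, H.fix ha, H.fix hb, H.inv_y]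
    linear_combination (-a - b * y) * H.two
  have hbr : ∀ v : Point 𝕜 K, v.val x ≤ 1 → v.val b ≤ 1 := by
    intro v hv
    rw [hb']
    refine Valuation.map_add_le _ (hz v hv) ?_
    rw [← pcomap_val]
    apply hz
    rw [pcomap_val, H.inv_x]
    exact hv
  obtain ⟨q, hq⟩ := poly_of_regular H.curve H.dx hb hbr
  have har : ∀ v : Point 𝕜 K, v.val x ≤ 1 → v.val a ≤ 1 := by
    intro v hv
    have h1 : a = (a + b * y) - b * y := by ring
    rw [h1]
    refine (Valuation.map_sub _ _ _).trans (max_le (hz v hv) ?_)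
    rw [map_mul]
    exact mul_le_one' (hbr v hv) (H.val_y_le hv)
  obtain ⟨p, hp⟩ := poly_of_regular H.curve H.dx ha har
  exact ⟨p, q, by rw [hp, hq]⟩

theorem exists_inf : ∃ v : Point 𝕜 K, 1 < v.val x := by
  by_contra h
  push Not at h
  obtain ⟨c, hc⟩ := const_of_regular H.curve h
  exact H.trans (by rw [hc]; exact isAlgebraic_algebraMap c)

end AS

/-- the map `(p, q) ↦ p(x) + q(x) y` -/
noncomputable def pqMap (x y : K) (a b : ℕ) :
    (Polynomial.degreeLT 𝕜 a × Polynomial.degreeLT 𝕜 b) →ₗ[𝕜] K where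
  toFun w := Polynomial.aeval x (w.1 : 𝕜[X]) + Polynomial.aeval x (w.2 : 𝕜[X]) * y
  map_add' u w := by
    simp only [Prod.fst_add, Prod.snd_add, Submodule.coe_add, map_add]
    ring
  map_smul' c w := by
    simp only [Prod.smul_fst, Prod.smul_snd, Submodule.coe_smul, map_smul, RingHom.id_apply,
      smul_add, smul_mul_assoc]

open Classical in
/-- the line bundle of the pole divisor of `x` -/
noncomputable def xpole (hK : IsCurve 𝕜 K) (x : K) (hx : x ≠ 0) : LineBundle 𝕜 K where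
  frame v := if v.val x ≤ 1 then 1 else Units.mk0 x hx
  finite := by
    refine (finite_not_reg hK x).subset fun v hv h => hv ?_
    rw [if_pos h, Units.val_one, map_one]

theorem xpole_val (hK : IsCurve 𝕜 K) (x : K) (hx : x ≠ 0) (v : Point 𝕜 K) :
    v.val ((xpole hK x hx).frame v : K) = max 1 (v.val x) := by
  classical
  change v.val ((if v.val x ≤ 1 then 1 else Units.mk0 x hx : Kˣ) : K) = _
  split_ifs with h
  · rw [Units.val_one, map_one, max_eq_left h]
  · rw [Units.val_mk0, max_eq_right (not_le.1 h).le]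

theorem xpole_degree (hK : IsCurve 𝕜 K) {x : K} (hD : KaehlerDifferential.D 𝕜 K x ≠ 0)
    (hx : x ≠ 0) : (xpole hK x hx).degree = Module.finrank 𝕜⟮x⟯ K := by
  classical
  rw [← adjoin_inv, ← degZ_eq hK (D_inv_ne hD), LineBundle.degree, degZ]
  refine finsum_congr fun v => ?_
  change -v.ord ((if v.val x ≤ 1 then 1 else Units.mk0 x hx : Kˣ) : K) = _
  rw [v.ord_inv]
  split_ifs with h
  · rw [Units.val_one, v.ord_one]
    have := (v.val_le_one_iff hx).1 h
    omega
  · rw [Units.val_mk0]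
    have := (v.one_lt_val_iff hx).1 (not_le.1 h)
    omega

namespace AS

variable {x y : K} {g : ℕ} {σ : K ≃ₐ[𝕜] K} (H : AS x y g σ)

include H

theorem pqMap_injective (a b : ℕ) : Function.Injective (pqMap (𝕜 := 𝕜) x y a b) := by
  rw [injective_iff_map_eq_zero]
  rintro ⟨⟨p, hp'⟩, ⟨q, hq⟩⟩ h
  have h1 : Polynomial.aeval x p + Polynomial.aeval x q * y = 0 := h
  obtain ⟨h2, h3⟩ := H.coeff_zero (mem_adj p) (mem_adj q) h1
  have hp0 : p = 0 := by
    by_contra h4
    exact aeval_ne_zero H.trans h4 h2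
  have hq0 : q = 0 := by
    by_contra h4
    exact aeval_ne_zero H.trans h4 h3
  subst hp0 hq0
  rfl

/-- the two parts have different orders at infinity -/
theorem parts {v : Point 𝕜 K} (hv : 1 < v.val x) (p q : 𝕜[X]) :
    v.val (Polynomial.aeval x p + Polynomial.aeval x q * y) =
      max (v.val (Polynomial.aeval x p)) (v.val (Polynomial.aeval x q * y)) := by
  rcases eq_or_ne p 0 with rfl | hp
  · rw [map_zero, zero_add, map_zero]
    exact (max_eq_right zero_le).symm
  rcases eq_or_ne q 0 with rfl | hq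
  · rw [map_zero, zero_mul, add_zero, map_zero]
    exact (max_eq_left zero_le).symm
  apply Valuation.map_add_of_distinct_val
  intro h
  rw [map_mul, val_aeval_inf hv p hp, val_aeval_inf hv q hq] at h
  have h1 := congrArg (fun z => z ^ 2) h
  change (v.val x ^ p.natDegree) ^ 2 = (v.val x ^ q.natDegree * v.val y) ^ 2 at h1
  rw [mul_pow, H.val_y_inf hv, ← pow_mul, ← pow_mul, ← pow_add] at h1
  have h2 := pow_right_injective₀ (zero_lt_one.trans hv) hv.ne' h1
  omega

theorem mem_bound_iff (t : ℕ) (z : K) :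
    (∀ v : Point 𝕜 K, v.val z ≤ max 1 (v.val x) ^ t) ↔
      z ∈ LinearMap.range (pqMap (𝕜 := 𝕜) x y (t + 1) (t - g)) := by
  constructor
  · intro hz
    obtain ⟨p, q, rfl⟩ := H.mem_ring (z := z) (fun v hv => by
      have := hz v
      rwa [max_eq_left hv, one_pow] at this)
    obtain ⟨v, hv⟩ := H.exists_inf
    have h1 := hz v
    rw [max_eq_right hv.le, H.parts hv, max_le_iff] at h1
    refine ⟨⟨⟨p, ?_⟩, ⟨q, ?_⟩⟩, rfl⟩
    · rw [Polynomial.mem_degreeLT]
      rcases eq_or_ne p 0 with rfl | hp0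
      · rw [Polynomial.degree_zero]; exact WithBot.bot_lt_coe _
      have h4 := h1.1
      rw [val_aeval_inf hv p hp0, pow_le_pow_iff_right₀ hv] at h4
      rw [Polynomial.degree_eq_natDegree hp0]
      exact_mod_cast (by omega : p.natDegree < t + 1)
    · rw [Polynomial.mem_degreeLT]
      rcases eq_or_ne q 0 with rfl | hq0
      · rw [Polynomial.degree_zero]; exact WithBot.bot_lt_coe _
      have h4 := pow_le_pow_left' h1.2 2
      rw [map_mul, val_aeval_inf hv q hq0, mul_pow, H.val_y_inf hv, ← pow_mul, ← pow_mul,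
        ← pow_add, pow_le_pow_iff_right₀ hv] at h4
      rw [Polynomial.degree_eq_natDegree hq0]
      exact_mod_cast (by omega : q.natDegree < t - g)
  · rintro ⟨⟨⟨p, hp'⟩, ⟨q, hq⟩⟩, rfl⟩ v
    change v.val (Polynomial.aeval x p + Polynomial.aeval x q * y) ≤ _
    rw [Polynomial.mem_degreeLT] at hp' hq
    by_cases hv : v.val x ≤ 1
    · rw [max_eq_left hv, one_pow]
      refine Valuation.map_add_le _ (aeval_le hv p) ?_
      rw [map_mul]
      exact mul_le_one' (aeval_le hv q) (H.val_y_le hv)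
    · have hv' := not_le.1 hv
      rw [max_eq_right hv'.le]
      refine Valuation.map_add_le _ ?_ ?_
      · rcases eq_or_ne p 0 with rfl | hp0
        · simp
        rw [val_aeval_inf hv' p hp0, pow_le_pow_iff_right₀ hv']
        rw [Polynomial.degree_eq_natDegree hp0] at hp'
        have : p.natDegree < t + 1 := by exact_mod_cast hp'
        omega
      · rcases eq_or_ne q 0 with rfl | hq0
        · simp
        rw [Polynomial.degree_eq_natDegree hq0] at hq
        have h3 : q.natDegree < t - g := by exact_mod_cast hq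
        have h4 : v.val (Polynomial.aeval x q * y) ^ 2 ≤ (v.val x ^ t) ^ 2 := by
          rw [map_mul, val_aeval_inf hv' q hq0, mul_pow, H.val_y_inf hv', ← pow_mul, ← pow_mul,
            ← pow_add, pow_le_pow_iff_right₀ hv']
          omega
        exact (pow_le_pow_iff_left₀ zero_le zero_le two_ne_zero).1 h4

theorem H0_xpole_pow (t : ℕ) : H0 (lpow (xpole H.curve x H.x_ne) t) =
    LinearMap.range (pqMap (𝕜 := 𝕜) x y (t + 1) (t - g)) := by
  ext z
  rw [← H.mem_bound_iff t z]
  refine forall_congr' fun v => ?_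
  change v.val z ≤ v.val ((((xpole H.curve x H.x_ne).frame v) ^ (t : ℤ) : Kˣ) : K) ↔ _
  have h1 : v.val ((((xpole H.curve x H.x_ne).frame v) ^ (t : ℤ) : Kˣ) : K) =
      max 1 (v.val x) ^ t := by
    rw [zpow_natCast, Units.val_pow_eq_pow_val, map_pow]
    congr 1
    exact xpole_val H.curve x H.x_ne v
  rw [h1]

theorem finrank_H0_xpole_pow (t : ℕ) :
    FiniteDimensional 𝕜 (H0 (lpow (xpole H.curve x H.x_ne) t)) ∧
    Module.finrank 𝕜 (H0 (lpow (xpole H.curve x H.x_ne) t)) = (t + 1) + (t - g) := by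
  rw [H.H0_xpole_pow t]
  have e1 : ∀ m : ℕ, Module.finrank 𝕜 (Polynomial.degreeLT 𝕜 m) = m := fun m => by
    rw [(Polynomial.degreeLTEquiv 𝕜 m).finrank_eq, Module.finrank_fin_fun]
  have f1 : ∀ m : ℕ, Module.Finite 𝕜 (Polynomial.degreeLT 𝕜 m) := fun m =>
    Module.Finite.equiv (Polynomial.degreeLTEquiv 𝕜 m).symm
  have i1 := f1 (t + 1)
  have i2 := f1 (t - g)
  refine ⟨inferInstance, ?_⟩
  rw [LinearMap.finrank_range_of_inj (H.pqMap_injective _ _), Module.finrank_prod, e1, e1]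

/-- the genus of `y ^ 2 + y = x ^ (2 g + 1)` is `g` -/
theorem genus_eq : genus 𝕜 K = g := by
  refine genus_of_hilbert H.curve 2 g g (xpole H.curve x H.x_ne) (by norm_num) ?_ fun t ht => ?_
  · rw [xpole_degree H.curve H.dx, H.finrank_eq]
  · obtain ⟨h1, h2⟩ := H.finrank_H0_xpole_pow t
    refine ⟨h1, ?_⟩
    rw [h2]
    push_cast
    omega

end AS

end Pool.Agent.TH126.KG
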