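import Pool.Agent.TH185.C.Duality

/-!
The genus of a curve from the Hilbert function of a line bundle (the proofs are those of
`Pool/Agent/W45/PC/G.lean` and `Pool/Agent/W518/EG/TGen.lean` of the starting repository, with the
complex numbers replaced by an algebraically closed field).
-/

open scoped WithZero Matrix
open IntermediateField

set_option linter.unusedSectionVars false
set_option linter.unusedVariables false

namespace Pool.Agent.TH126.KG

open Pool.Agent.TH185.C

variable {𝕜 K : Type} [Field 𝕜] [IsAlgClosed 𝕜] [Field K] [Algebra 𝕜 K] {n : ℕ}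

/-- the powers of a line bundle -/
def lpow (L : LineBundle 𝕜 K) (t : ℤ) : LineBundle 𝕜 K where
  frame v := L.frame v ^ t
  finite := L.finite.subset fun v hv h => hv (by
    rw [Units.val_zpow_eq_zpow_val, map_zpow₀, h, one_zpow])

theorem step1 (hK : IsCurve 𝕜 K) {E₁ E : Bundle 𝕜 K n} (h : IsElem E₁ E) :
    (FiniteDimensional 𝕜 E₁.sections ↔ FiniteDimensional 𝕜 E.sections) ∧
    (FiniteDimensional 𝕜 E.sections →
      Module.finrank 𝕜 E₁.sections ≤ Module.finrank 𝕜 E.sections ∧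
      Module.finrank 𝕜 E.sections ≤ Module.finrank 𝕜 E₁.sections + 1 ∧
      (Module.finrank 𝕜 E.sections = Module.finrank 𝕜 E₁.sections + 1 → Om E₁ = Om E)) := by
  obtain ⟨e, he, he₁, hdec⟩ := h.ex
  have hle : E₁.sections ≤ E.sections := fun s hs v => h.le v s (hs v)
  have hOm : Om E ≤ Om E₁ := fun l hl => ⟨hl.1, fun r hr => hl.2 r fun v => h.le v _ (hr v)⟩
  by_cases hcase : ∃ s ∈ E.sections, s ∉ E₁.sections
  · obtain ⟨s, hs, hs₁⟩ := hcase
    obtain ⟨cs, hcs⟩ := hdec ⟨fun _ => s, diag_mem_AA hK s⟩ hs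
    have hcs0 : cs ≠ 0 := by
      rintro rfl
      apply hs₁
      intro v
      have := hcs v
      rwa [zero_smul, sub_zero] at this
    have h1 := finrank_succ_aux hle hs hs₁ (fun p hp => by
      obtain ⟨c, hc⟩ := hdec ⟨fun _ => p, diag_mem_AA hK p⟩ hp
      refine ⟨c * cs⁻¹, fun v => ?_⟩
      have h2 : p - (c * cs⁻¹) • s = (p - c • e.1 v) - (c * cs⁻¹) • (s - cs • e.1 v) := by
        rw [smul_sub, smul_smul, mul_assoc, inv_mul_cancel₀ hcs0, mul_one]
        abel
      rw [h2]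
      exact stalk_sub (hc v) (stalk_const_smul (hcs v) _))
    have h3 : Om E₁ = Om E := by
      refine le_antisymm (fun l hl => ⟨hl.1, fun r hr => ?_⟩) hOm
      have hle : l e = 0 := by
        have h4 : l (⟨fun _ => s, diag_mem_AA hK s⟩ - cs • e) = 0 := hl.2 _ hcs
        rw [map_sub, hl.1 _ ⟨s, fun _ => rfl⟩, zero_sub, neg_eq_zero, map_smul, smul_eq_mul] at h4
        exact (mul_eq_zero.1 h4).resolve_left hcs0
      obtain ⟨c, hc⟩ := hdec r hr
      have h5 : l (r - c • e) = 0 := hl.2 _ hc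
      rw [map_sub, map_smul, hle, smul_zero, sub_zero] at h5
      exact h5
    refine ⟨h1.1, fun hfin => ?_⟩
    have h4 := h1.2 hfin
    exact ⟨by omega, by omega, fun _ => h3⟩
  · push Not at hcase
    have h1 : E₁.sections = E.sections := le_antisymm hle hcase
    rw [h1]
    refine ⟨Iff.rfl, fun _ => ⟨le_rfl, Nat.le_succ _, fun h => ?_⟩⟩
    omega

theorem chain1 (hK : IsCurve 𝕜 K) (N : ℕ) : ∀ E' E : Bundle 𝕜 K n,
    (∀ v s, s ∈ E'.stalk v → s ∈ E.stalk v) → E.degree - E'.degree = N →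
    (FiniteDimensional 𝕜 E'.sections ↔ FiniteDimensional 𝕜 E.sections) ∧
    (FiniteDimensional 𝕜 E.sections →
      Module.finrank 𝕜 E'.sections ≤ Module.finrank 𝕜 E.sections ∧
      Module.finrank 𝕜 E.sections ≤ Module.finrank 𝕜 E'.sections + N ∧
      (Module.finrank 𝕜 E.sections = Module.finrank 𝕜 E'.sections + N → Om E' = Om E)) := by
  induction N with
  | zero =>
    intro E' E h hd
    have h0 := stalk_eq_of_degree_eq hK h (by push_cast at hd; omega)
    have h1 : E'.sections = E.sections := by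
      ext s
      change (∀ v, s ∈ E'.stalk v) ↔ (∀ v, s ∈ E.stalk v)
      simp only [h0]
    have h2 : Om E' = Om E := by
      ext l
      change _ ∧ _ ↔ _ ∧ _
      simp only [h0]
    rw [h1]
    exact ⟨Iff.rfl, fun _ => ⟨le_rfl, le_rfl, fun _ => h2⟩⟩
  | succ N ih =>
    intro E' E h hd
    obtain ⟨E₁, h1, h2, h3⟩ := exists_modify hK h (by push_cast at hd; omega)
    obtain ⟨a1, a2⟩ := ih E' E₁ h3 (by push_cast at hd; omega)
    obtain ⟨b1, b2⟩ := step1 hK h1
    refine ⟨a1.trans b1, fun hfin => ?_⟩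
    obtain ⟨b3, b4, b5⟩ := b2 hfin
    obtain ⟨a3, a4, a5⟩ := a2 (b1.2 hfin)
    refine ⟨by omega, by omega, fun heq => ?_⟩
    rw [a5 (by omega), b5 (by omega)]

theorem om1_eq {L M : LineBundle 𝕜 K} (h : Om (lsum L 1) = Om (lsum M 1)) : Om1 L = Om1 M := by
  have key : ∀ L M : LineBundle 𝕜 K, Om (lsum L 1) = Om (lsum M 1) → Om1 L ≤ Om1 M := by
    intro L M h l hl
    let w : Fin 1 → Om1 L := fun _ => ⟨l, hl⟩
    let x := (omEquiv L 1).symm w
    have hx : (omEquiv L 1) x = w := (omEquiv L 1).apply_symm_apply w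
    have hM : x.1 ∈ Om (lsum M 1) := by rw [← h]; exact x.2
    have h1 : ((omEquiv M 1) ⟨x.1, hM⟩ 0).1 = ((omEquiv L 1) x 0).1 := rfl
    rw [hx] at h1
    have h2 : ((omEquiv M 1) ⟨x.1, hM⟩ 0).1 = l := h1
    rw [← h2]
    exact ((omEquiv M 1) ⟨x.1, hM⟩ 0).2
  exact le_antisymm (key L M h) (key M L h.symm)

theorem lchain (hK : IsCurve 𝕜 K) {L M : LineBundle 𝕜 K} (h : ∀ v s, s ∈ L.stalk v → s ∈ M.stalk v) :
    (FiniteDimensional 𝕜 (H0 L) ↔ FiniteDimensional 𝕜 (H0 M)) ∧
    (FiniteDimensional 𝕜 (H0 M) →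
      (Module.finrank 𝕜 (H0 M) : ℤ) - Module.finrank 𝕜 (H0 L) ≤ M.degree - L.degree ∧
      ((Module.finrank 𝕜 (H0 M) : ℤ) - Module.finrank 𝕜 (H0 L) = M.degree - L.degree →
        Om1 L = Om1 M)) := by
  have hle := ldegree_le hK h
  have e : ∀ L : LineBundle 𝕜 K, (lsum L 1).sections ≃ₗ[𝕜] H0 L := fun L =>
    (secEquiv L 1).trans (LinearEquiv.funUnique (Fin 1) 𝕜 (H0 L))
  have hf : ∀ L : LineBundle 𝕜 K, FiniteDimensional 𝕜 (lsum L 1).sections ↔
      FiniteDimensional 𝕜 (H0 L) := fun L =>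
    ⟨fun _ => (e L).finiteDimensional, fun _ => (e L).symm.finiteDimensional⟩
  have hr : ∀ L : LineBundle 𝕜 K, Module.finrank 𝕜 (lsum L 1).sections =
      Module.finrank 𝕜 (H0 L) := fun L => (e L).finrank_eq
  obtain ⟨h1, h2⟩ := chain1 hK (M.degree - L.degree).toNat (lsum L 1) (lsum M 1) (fun v s hs => by
    rw [mem_lsum_stalk] at hs ⊢
    exact fun i => h v _ (hs i)) (by
      rw [lsum_degree, lsum_degree]
      push_cast
      omega)
  rw [hf, hf] at h1
  rw [hf, hr, hr] at h2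
  refine ⟨h1, fun hfin => ?_⟩
  obtain ⟨h3, h4, h5⟩ := h2 hfin
  refine ⟨by omega, fun heq => om1_eq (h5 (by omega))⟩

theorem lpow_degree (L : LineBundle 𝕜 K) (t : ℤ) : (lpow L t).degree = t * L.degree := by
  unfold LineBundle.degree
  have h : ∀ v : Point 𝕜 K, -v.ord ((lpow L t).frame v : K) = t * -v.ord (L.frame v : K) := by
    intro v
    change -v.ord (((L.frame v) ^ t : Kˣ) : K) = _
    have h1 : v.ord (((L.frame v) ^ t : Kˣ) : K) = t * v.ord (L.frame v : K) := by
      unfold Point.ord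
      rw [Units.val_zpow_eq_zpow_val, map_zpow₀, WithZero.log_zpow]
      simp
    rw [h1]
    ring
  rw [finsum_congr h, mul_finsum]

open Classical in
/-- an effective upper bound -/
noncomputable def lplus (D : LineBundle 𝕜 K) : LineBundle 𝕜 K where
  frame v := if v.val (D.frame v : K) ≤ 1 then 1 else D.frame v
  finite := D.finite.subset fun v hv h => hv (by
    rw [if_pos h.le, Units.val_one, map_one])

theorem le_lplus (D : LineBundle 𝕜 K) (v : Point 𝕜 K) :
    v.val (D.frame v : K) ≤ v.val ((lplus D).frame v : K) := by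
  classical
  change _ ≤ v.val ((if v.val (D.frame v : K) ≤ 1 then 1 else D.frame v : Kˣ) : K)
  split_ifs with h
  · rw [Units.val_one, map_one]; exact h
  · exact le_rfl

theorem one_le_lplus (D : LineBundle 𝕜 K) (v : Point 𝕜 K) :
    1 ≤ v.val ((lplus D).frame v : K) := by
  classical
  change _ ≤ v.val ((if v.val (D.frame v : K) ≤ 1 then 1 else D.frame v : Kˣ) : K)
  split_ifs with h
  · rw [Units.val_one, map_one]
  · exact (not_le.1 h).le

/-- multiplication by a function -/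
noncomputable def mulEquiv (hK : IsCurve 𝕜 K) (f : Kˣ) (L : LineBundle 𝕜 K) :
    H0 (lmul (lprin hK f⁻¹) L) ≃ₗ[𝕜] H0 L where
  toFun s := ⟨(f : K) * s.1, fun v => by
    have h1 := s.2 v
    rw [mem_lmul] at h1
    change v.val ((f : K) * s.1) ≤ v.val (L.frame v : K)
    have h2 : v.val (((lprin hK f⁻¹).frame v : Kˣ) : K) = (v.val (f : K))⁻¹ := by
      change v.val ((f⁻¹ : Kˣ) : K) = _
      rw [Units.val_inv_eq_inv_val, map_inv₀]
    rw [h2] at h1
    have h3 : v.val (f : K) ≠ 0 := v.val_ne_zero f.ne_zero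
    rw [map_mul]
    calc v.val (f : K) * v.val s.1 ≤ v.val (f : K) * ((v.val (f : K))⁻¹ * v.val (L.frame v : K)) :=
          mul_le_mul_right h1 _
      _ = v.val (L.frame v : K) := by rw [← mul_assoc, mul_inv_cancel₀ h3, one_mul]⟩
  invFun s := ⟨((f⁻¹ : Kˣ) : K) * s.1, fun v => by
    rw [mem_lmul, map_mul]
    exact mul_le_mul_right (s.2 v) _⟩
  left_inv s := by
    apply Subtype.ext
    change ((f⁻¹ : Kˣ) : K) * ((f : K) * s.1) = s.1
    rw [← mul_assoc, Units.inv_mul, one_mul]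
  right_inv s := by
    apply Subtype.ext
    change (f : K) * (((f⁻¹ : Kˣ) : K) * s.1) = s.1
    rw [← mul_assoc, Units.mul_inv, one_mul]
  map_add' s t := by
    apply Subtype.ext
    exact mul_add _ _ _
  map_smul' c s := by
    apply Subtype.ext
    exact mul_smul_comm _ _ _

open Classical in
/-- a line bundle containing a given one and a repartition -/
noncomputable def lwith (D : LineBundle 𝕜 K) (r : repartitions 𝕜 K) : LineBundle 𝕜 K where
  frame v := if h : v.val (r.1 v) ≤ v.val (D.frame v : K) then D.frame v else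
    Units.mk0 (r.1 v) (by
      intro h0
      apply h
      rw [h0, map_zero]
      exact zero_le)
  finite := by
    refine (D.finite.union r.2).subset fun v hv => ?_
    by_contra hcon
    simp only [Set.mem_union, Set.mem_ofPred_eq, not_or, not_not] at hcon
    have h1 : v.val (r.1 v) ≤ v.val (D.frame v : K) := by rw [hcon.1]; exact hcon.2
    apply hv
    rw [dif_pos h1]
    exact hcon.1

theorem le_lwith (D : LineBundle 𝕜 K) (r : repartitions 𝕜 K) (v : Point 𝕜 K) (s : K)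
    (hs : s ∈ D.stalk v) : s ∈ (lwith D r).stalk v := by
  classical
  change v.val s ≤ v.val (((lwith D r).frame v : Kˣ) : K)
  have hs' : v.val s ≤ v.val (D.frame v : K) := hs
  unfold lwith
  dsimp only
  split_ifs with h
  · exact hs'
  · exact hs'.trans (not_le.1 h).le

theorem mem_lwith (D : LineBundle 𝕜 K) (r : repartitions 𝕜 K) (v : Point 𝕜 K) :
    r.1 v ∈ (lwith D r).stalk v := by
  classical
  change v.val (r.1 v) ≤ v.val (((lwith D r).frame v : Kˣ) : K)
  unfold lwith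
  dsimp only
  split_ifs with h
  · exact h
  · exact le_rfl

/-- Riemann's inequality -/
theorem riemann' (hK : IsCurve 𝕜 K) {δ t₀ : ℕ} {H : LineBundle 𝕜 K} (hδ : 1 ≤ δ) (hH : H.degree = δ)
    {G : ℤ} (hl : ∀ t : ℕ, t₀ ≤ t → FiniteDimensional 𝕜 (H0 (lpow H t)) ∧
      (Module.finrank 𝕜 (H0 (lpow H t)) : ℤ) = t * δ + 1 - G) (D : LineBundle 𝕜 K) :
    FiniteDimensional 𝕜 (H0 D) ∧ D.degree + 1 - G ≤ Module.finrank 𝕜 (H0 D) := by
  set N := (lplus D).degree with hN
  obtain ⟨t, ht1, ht2⟩ : ∃ t : ℕ, t₀ ≤ t ∧ 0 < (t : ℤ) * δ + 1 - G - N := by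
    refine ⟨max t₀ (G + N).toNat, le_max_left _ _, ?_⟩
    have h1 : (G + N).toNat ≤ max t₀ (G + N).toNat := le_max_right _ _
    set m := max t₀ (G + N).toNat
    have h2 : (G + N) ≤ (m : ℤ) := by omega
    have h3 : (m : ℤ) * 1 ≤ (m : ℤ) * δ := mul_le_mul_of_nonneg_left (by omega) (by omega)
    linarith
  obtain ⟨f1, f2⟩ := hl t ht1
  set M0 := lmul (lpow H t) (linv (lplus D)) with hM0
  have hsub : ∀ v s, s ∈ M0.stalk v → s ∈ (lpow H t).stalk v := by
    intro v s hs
    rw [mem_lmul] at hs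
    refine hs.trans ?_
    have h1 : v.val ((linv (lplus D)).frame v : K) ≤ 1 := by
      change v.val ((((lplus D).frame v)⁻¹ : Kˣ) : K) ≤ 1
      rw [Units.val_inv_eq_inv_val, map_inv₀]
      exact inv_le_one_of_one_le₀ (one_le_lplus D v)
    exact mul_le_of_le_one_right' h1
  obtain ⟨c1, c2⟩ := lchain hK hsub
  have hfin := c1.2 f1
  have c3 := (c2 f1).1
  have hdM : M0.degree = t * δ - N := by
    rw [hM0, lmul_degree, lpow_degree, linv_degree, hH, ← hN]
    ring
  rw [hdM, lpow_degree, hH, f2] at c3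
  have hpos : 0 < Module.finrank 𝕜 (H0 M0) := by omega
  have := Module.nontrivial_of_finrank_pos hpos
  obtain ⟨⟨f, hf⟩, hf0⟩ := exists_ne (0 : H0 M0)
  have hf0' : f ≠ 0 := fun h => hf0 (Subtype.ext h)
  set fu : Kˣ := Units.mk0 f hf0' with hfu
  set M := lmul (lprin hK fu⁻¹) (lpow H t) with hM
  have hDM : ∀ v s, s ∈ D.stalk v → s ∈ M.stalk v := by
    intro v s hs
    rw [mem_lmul]
    have h1 : v.val s ≤ v.val ((lplus D).frame v : K) := le_trans hs (le_lplus D v)
    have h2 := hf v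
    rw [mem_lmul] at h2
    have h3 : v.val ((linv (lplus D)).frame v : K) = (v.val ((lplus D).frame v : K))⁻¹ := by
      change v.val ((((lplus D).frame v)⁻¹ : Kˣ) : K) = _
      rw [Units.val_inv_eq_inv_val, map_inv₀]
    have h4 : v.val (((lprin hK fu⁻¹).frame v : Kˣ) : K) = (v.val f)⁻¹ := by
      change v.val ((fu⁻¹ : Kˣ) : K) = _
      rw [Units.val_inv_eq_inv_val, map_inv₀]
      rfl
    rw [h3] at h2
    rw [h4]
    refine h1.trans ?_
    have h5 : 0 < v.val ((lplus D).frame v : K) := frame_pos _ v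
    have h6 : 0 < v.val f := zero_lt_iff.2 (v.val_ne_zero hf0')
    rw [le_mul_inv_iff₀ h5] at h2
    rw [le_inv_mul_iff₀ h6]
    exact h2
  obtain ⟨d1, d2⟩ := lchain hK hDM
  have e := mulEquiv hK fu (lpow H t)
  have hfM : FiniteDimensional 𝕜 (H0 M) := e.symm.finiteDimensional
  have hrM : Module.finrank 𝕜 (H0 M) = Module.finrank 𝕜 (H0 (lpow H t)) := e.finrank_eq
  have d3 := (d2 hfM).1
  have hdM2 : M.degree = t * δ := by
    rw [hM, lmul_degree, lprin_degree, lpow_degree, hH, zero_add]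
  rw [hrM, f2, hdM2] at d3
  exact ⟨d1.2 hfM, by linarith⟩

/-- the genus from the Hilbert function -/
theorem genus_of_hilbert (hK : IsCurve 𝕜 K) (δ G t₀ : ℕ) (H : LineBundle 𝕜 K) (hδ : 1 ≤ δ)
    (hH : H.degree = δ) (hl' : ∀ t : ℕ, t₀ ≤ t → FiniteDimensional 𝕜 (H0 (lpow H t)) ∧
    (Module.finrank 𝕜 (H0 (lpow H t)) : ℤ) = t * δ + 1 - G) : genus 𝕜 K = G := by
  have hR := riemann' hK hδ hH hl'
  have hOm : ∀ D : LineBundle 𝕜 K, (∀ v s, s ∈ (lpow H t₀).stalk v → s ∈ D.stalk v) →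
      Om1 (lpow H t₀) = Om1 D := by
    intro D hD
    obtain ⟨r1, r2⟩ := hR D
    obtain ⟨c1, c2⟩ := lchain hK hD
    obtain ⟨c3, c4⟩ := c2 r1
    apply c4
    have h5 := (hl' t₀ le_rfl).2
    rw [lpow_degree, hH, h5] at c3 ⊢
    apply le_antisymm c3
    linarith
  have hbot : Om1 (lpow H t₀) = ⊥ := by
    rw [eq_bot_iff]
    intro l hl
    rw [Submodule.mem_bot]
    refine LinearMap.ext fun r => ?_
    rw [hOm (lwith (lpow H t₀) r) (le_lwith _ r)] at hl
    exact hl.2 r (mem_lwith _ r)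
  have hchi : LHasChi (lpow H t₀) (t₀ * δ + 1 - G) := by
    refine ⟨(hl' t₀ le_rfl).1, ?_, ?_⟩
    · rw [hbot]; infer_instance
    · rw [hbot, finrank_bot, (hl' t₀ le_rfl).2]
      push_cast
      linarith
  have hchi1 := hasChi_of_hasChi hK (hasChi_lsum hchi 1) (F := lsum (one 𝕜 K) 1)
  obtain ⟨k1, k2, k3⟩ := lHasChi_of_lsum hchi1
  rw [lsum_degree, lsum_degree, one_degree, lpow_degree, hH, (H0_one hK).2] at k3
  have hfr : (Module.finrank 𝕜 (Om1 (one 𝕜 K)) : ℤ) = G := by
    push_cast at k3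
    linarith
  have e := Submodule.dualQuotEquivDualAnnihilator
    ((integralRepartitions 𝕜 K ⊔ principalRepartitions 𝕜 K).comap (repartitions 𝕜 K).subtype)
  rw [← om1_one_eq] at e
  have h5 := e.finrank_eq
  rw [Subspace.dual_finrank_eq] at h5
  have h7 : Module.finrank 𝕜 (↥(repartitions 𝕜 K) ⧸
      (integralRepartitions 𝕜 K ⊔ principalRepartitions 𝕜 K).comap (repartitions 𝕜 K).subtype) =
      genus 𝕜 K := rfl
  rw [h7] at h5
  rw [← h5] at hfr
  exact_mod_cast hfr

end Pool.Agent.TH126.KG
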