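import Pool.Agent.TH126.KG.AS

/-!
The curves `y ^ 2 + y = x ^ (2 g + 1)` in characteristic two, as a function field.
-/

open scoped WithZero Matrix Polynomial IntermediateField TensorProduct
open WithZero

set_option linter.unusedSectionVars false

namespace Pool.Agent.TH126.KG

open Pool.Agent.TH185.C

variable (𝕜 : Type) [Field 𝕜] (g : ℕ)

/-- `X ^ (2 g + 1)` as a rational function -/
noncomputable def aF : RatFunc 𝕜 := algebraMap 𝕜[X] (RatFunc 𝕜) (Polynomial.X ^ (2 * g + 1))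

/-- the polynomial `Y ^ 2 + Y - X ^ (2 g + 1)` -/
noncomputable def aP : (RatFunc 𝕜)[X] :=
  Polynomial.X ^ 2 + (Polynomial.X - Polynomial.C (aF 𝕜 g))

theorem aP_deg : (Polynomial.X - Polynomial.C (aF 𝕜 g)).degree < ((2 : ℕ) : WithBot ℕ) := by
  rw [Polynomial.degree_X_sub_C]
  exact_mod_cast one_lt_two

theorem aP_monic : (aP 𝕜 g).Monic := Polynomial.monic_X_pow_add (aP_deg 𝕜 g)

theorem aP_natDegree : (aP 𝕜 g).natDegree = 2 := by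
  have h : (aP 𝕜 g).degree = ((2 : ℕ) : WithBot ℕ) := by
    rw [aP, Polynomial.degree_add_eq_left_of_degree_lt, Polynomial.degree_X_pow]
    rw [Polynomial.degree_X_pow]
    exact aP_deg 𝕜 g
  exact Polynomial.natDegree_eq_of_degree_eq_some h

theorem aF_ne (b : RatFunc 𝕜) : b ^ 2 + b ≠ aF 𝕜 g := by
  intro h
  have h1 : IsIntegral 𝕜[X] b := by
    refine ⟨Polynomial.X ^ 2 + (Polynomial.X - Polynomial.C (Polynomial.X ^ (2 * g + 1))),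
      Polynomial.monic_X_pow_add ?_, ?_⟩
    · rw [Polynomial.degree_X_sub_C]
      exact_mod_cast one_lt_two
    · rw [Polynomial.eval₂_add, Polynomial.eval₂_sub, Polynomial.eval₂_X_pow,
        Polynomial.eval₂_X, Polynomial.eval₂_C, ← add_sub_assoc, sub_eq_zero, h]
      rfl
  obtain ⟨p, rfl⟩ := IsIntegrallyClosed.isIntegral_iff.1 h1
  rw [← map_pow, ← map_add] at h
  have h2 : p ^ 2 + p = Polynomial.X ^ (2 * g + 1) := IsFractionRing.injective 𝕜[X] (RatFunc 𝕜) h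
  have h3 := congrArg Polynomial.natDegree h2
  rw [Polynomial.natDegree_X_pow] at h3
  rcases Nat.eq_zero_or_pos p.natDegree with h0 | h0
  · obtain ⟨c, rfl⟩ := Polynomial.natDegree_eq_zero.1 h0
    rw [← Polynomial.C_pow, ← Polynomial.C_add, Polynomial.natDegree_C] at h3
    omega
  · rw [Polynomial.natDegree_add_eq_left_of_natDegree_lt, Polynomial.natDegree_pow] at h3
    · omega
    · rw [Polynomial.natDegree_pow]; omega

theorem aP_irreducible : Irreducible (aP 𝕜 g) := by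
  rw [(aP_monic 𝕜 g).irreducible_iff_roots_eq_zero_of_degree_le_three
    (aP_natDegree 𝕜 g).ge (by rw [aP_natDegree]; norm_num)]
  rw [Multiset.eq_zero_iff_forall_notMem]
  intro b hb
  have h := Polynomial.isRoot_of_mem_roots hb
  rw [Polynomial.IsRoot, aP, Polynomial.eval_add, Polynomial.eval_sub, Polynomial.eval_pow,
    Polynomial.eval_X, Polynomial.eval_C, ← add_sub_assoc, sub_eq_zero] at h
  exact aF_ne 𝕜 g b h

instance aP_fact : Fact (Irreducible (aP 𝕜 g)) := ⟨aP_irreducible 𝕜 g⟩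

/-- the function field of `y ^ 2 + y = x ^ (2 g + 1)` -/
abbrev AK : Type := AdjoinRoot (aP 𝕜 g)

/-- the coordinate function `x` -/
noncomputable def ax : AK 𝕜 g := algebraMap (RatFunc 𝕜) (AK 𝕜 g) RatFunc.X

/-- the coordinate function `y` -/
noncomputable def ay : AK 𝕜 g := AdjoinRoot.root (aP 𝕜 g)

theorem aeval_ax (p : 𝕜[X]) : Polynomial.aeval (ax 𝕜 g) p =
    algebraMap (RatFunc 𝕜) (AK 𝕜 g) (algebraMap 𝕜[X] (RatFunc 𝕜) p) := by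
  have h1 : ax 𝕜 g =
      algebraMap (RatFunc 𝕜) (AK 𝕜 g) (algebraMap 𝕜[X] (RatFunc 𝕜) Polynomial.X) := by
    rw [ax, RatFunc.algebraMap_X]
  rw [h1, Polynomial.aeval_algebraMap_apply, Polynomial.aeval_algebraMap_apply,
    Polynomial.aeval_X_left_apply]

theorem ax_pow : algebraMap (RatFunc 𝕜) (AK 𝕜 g) (aF 𝕜 g) = ax 𝕜 g ^ (2 * g + 1) := by
  rw [aF, ← aeval_ax, map_pow, Polynomial.aeval_X]

theorem ay_eq : (ay 𝕜 g) ^ 2 + ay 𝕜 g = (ax 𝕜 g) ^ (2 * g + 1) := by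
  rw [← ax_pow]
  have h := AdjoinRoot.eval₂_root (aP 𝕜 g)
  rw [aP, Polynomial.eval₂_add, Polynomial.eval₂_sub, Polynomial.eval₂_X_pow, Polynomial.eval₂_X,
    Polynomial.eval₂_C] at h
  have h1 : ay 𝕜 g ^ 2 + (ay 𝕜 g - algebraMap (RatFunc 𝕜) (AK 𝕜 g) (aF 𝕜 g)) = 0 := h
  linear_combination h1

instance AK_finite : Module.Finite (RatFunc 𝕜) (AK 𝕜 g) := (aP_monic 𝕜 g).finite_adjoinRoot

theorem ax_transcendental : Transcendental 𝕜 (ax 𝕜 g) := by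
  rw [transcendental_iff]
  intro p hp'
  rw [aeval_ax] at hp'
  rw [← map_zero (algebraMap (RatFunc 𝕜) (AK 𝕜 g))] at hp'
  have h1 := (algebraMap (RatFunc 𝕜) (AK 𝕜 g)).injective hp'
  rw [← map_zero (algebraMap 𝕜[X] (RatFunc 𝕜))] at h1
  exact IsFractionRing.injective 𝕜[X] (RatFunc 𝕜) h1

theorem AK_isCurve : IsCurve 𝕜 (AK 𝕜 g) where
  fg := by
    rw [IntermediateField.fg_top_iff]
    have h1 : Algebra.EssFiniteType 𝕜[X] (RatFunc 𝕜) :=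
      Algebra.EssFiniteType.of_isLocalization _ (nonZeroDivisors 𝕜[X])
    have h2 : Algebra.EssFiniteType 𝕜 (RatFunc 𝕜) := Algebra.EssFiniteType.comp 𝕜 𝕜[X] (RatFunc 𝕜)
    exact Algebra.EssFiniteType.comp 𝕜 (RatFunc 𝕜) (AK 𝕜 g)
  trdeg := by
    have h1 := _root_.trdeg_add_eq 𝕜 (RatFunc 𝕜) (A := AK 𝕜 g)
    have h2 := _root_.trdeg_add_eq 𝕜 𝕜[X] (A := RatFunc 𝕜)
    have h3 : Algebra.IsAlgebraic (RatFunc 𝕜) (AK 𝕜 g) := Algebra.IsAlgebraic.of_finite _ _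
    have h4 : Algebra.IsAlgebraic 𝕜[X] (RatFunc 𝕜) :=
      IsLocalization.isAlgebraic _ (nonZeroDivisors 𝕜[X])
    rw [_root_.trdeg_eq_zero (R := RatFunc 𝕜), add_zero] at h1
    rw [_root_.trdeg_eq_zero (R := 𝕜[X]), add_zero] at h2
    rw [← h1, ← h2, Polynomial.trdeg_of_isDomain]

variable [IsAlgClosed 𝕜]

theorem algebraMap_mem (a : RatFunc 𝕜) : algebraMap (RatFunc 𝕜) (AK 𝕜 g) a ∈ 𝕜⟮ax 𝕜 g⟯ := by
  rw [← RatFunc.num_div_denom a, map_div₀, ← aeval_ax, ← aeval_ax]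
  exact div_mem (mem_adj _) (mem_adj _)

theorem span_AK (z : AK 𝕜 g) : ∃ a ∈ 𝕜⟮ax 𝕜 g⟯, ∃ b ∈ 𝕜⟮ax 𝕜 g⟯, z = a + b * ay 𝕜 g := by
  obtain ⟨p, rfl⟩ := AdjoinRoot.mk_surjective z
  have h1 := Polynomial.modByMonic_add_div p (aP 𝕜 g)
  have hdeg : (p %ₘ (aP 𝕜 g)).natDegree < 2 := by
    have := Polynomial.natDegree_modByMonic_lt p (aP_monic 𝕜 g) (by
      intro h
      have := congrArg Polynomial.natDegree h
      rw [aP_natDegree, Polynomial.natDegree_one] at this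
      omega)
    rwa [aP_natDegree] at this
  obtain ⟨a, b, hab⟩ := Polynomial.exists_eq_X_add_C_of_natDegree_le_one (Nat.lt_succ_iff.1 hdeg)
  refine ⟨_, algebraMap_mem 𝕜 g b, _, algebraMap_mem 𝕜 g a, ?_⟩
  rw [← h1, hab, map_add, map_add, map_mul, map_mul, AdjoinRoot.mk_self, zero_mul, add_zero,
    AdjoinRoot.mk_X, AdjoinRoot.mk_C, AdjoinRoot.mk_C, add_comm]
  rfl

variable [CharP 𝕜 2]

theorem two_RF : (2 : RatFunc 𝕜) = 0 := by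
  have h : (2 : 𝕜) = 0 := CharTwo.two_eq_zero
  have h1 := congrArg (algebraMap 𝕜 (RatFunc 𝕜)) h
  rwa [map_ofNat, map_zero] at h1

theorem two_AK : (2 : AK 𝕜 g) = 0 := by
  have h : (2 : 𝕜) = 0 := CharTwo.two_eq_zero
  have h1 := congrArg (algebraMap 𝕜 (AK 𝕜 g)) h
  rwa [map_ofNat, map_zero] at h1

/-- the involution, over `𝕜(x)` -/
noncomputable def aι' : AK 𝕜 g →ₐ[RatFunc 𝕜] AK 𝕜 g :=
  AdjoinRoot.liftAlgHom (aP 𝕜 g) (Algebra.ofId (RatFunc 𝕜) (AK 𝕜 g)) (ay 𝕜 g + 1) (by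
    change Polynomial.eval₂ _ _ (Polynomial.X ^ 2 + (Polynomial.X - Polynomial.C (aF 𝕜 g))) = 0
    rw [Polynomial.eval₂_add, Polynomial.eval₂_sub, Polynomial.eval₂_X_pow, Polynomial.eval₂_X,
      Polynomial.eval₂_C]
    have h1 : (Algebra.ofId (RatFunc 𝕜) (AK 𝕜 g) : RatFunc 𝕜 →+* AK 𝕜 g) (aF 𝕜 g) =
      ax 𝕜 g ^ (2 * g + 1) := ax_pow 𝕜 g
    rw [h1, ← ay_eq]
    linear_combination (ay 𝕜 g + 1) * two_AK 𝕜 g)

theorem aι'_y : aι' 𝕜 g (ay 𝕜 g) = ay 𝕜 g + 1 :=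
  AdjoinRoot.liftAlgHom_root _ _ _ _

theorem aι'_comp : (aι' 𝕜 g).comp (aι' 𝕜 g) = AlgHom.id (RatFunc 𝕜) (AK 𝕜 g) := by
  apply AdjoinRoot.algHom_ext
  change aι' 𝕜 g (aι' 𝕜 g (ay 𝕜 g)) = ay 𝕜 g
  rw [aι'_y, map_add, aι'_y, map_one]
  linear_combination two_AK 𝕜 g

/-- the involution -/
noncomputable def aι : AK 𝕜 g ≃ₐ[𝕜] AK 𝕜 g :=
  (AlgEquiv.ofAlgHom (aι' 𝕜 g) (aι' 𝕜 g) (aι'_comp 𝕜 g) (aι'_comp 𝕜 g)).restrictScalars 𝕜

theorem D_y : KaehlerDifferential.D 𝕜 (AK 𝕜 g) (ay 𝕜 g) =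
    (ax 𝕜 g ^ (2 * g)) • KaehlerDifferential.D 𝕜 (AK 𝕜 g) (ax 𝕜 g) := by
  have h := congrArg (KaehlerDifferential.D 𝕜 (AK 𝕜 g)) (ay_eq 𝕜 g)
  have h2 := two_AK 𝕜 g
  rw [map_add, Derivation.leibniz_pow, Derivation.leibniz_pow] at h
  have h3 : (2 : ℕ) • (ay 𝕜 g ^ (2 - 1) • KaehlerDifferential.D 𝕜 (AK 𝕜 g) (ay 𝕜 g)) = 0 := by
    rw [← Nat.cast_smul_eq_nsmul (AK 𝕜 g), Nat.cast_ofNat, h2, zero_smul]
  have h4 : ((2 * g + 1 : ℕ) : AK 𝕜 g) = 1 := by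
    push_cast
    rw [h2]; ring
  rw [h3, zero_add, ← Nat.cast_smul_eq_nsmul (AK 𝕜 g), h4, one_smul] at h
  exact h

theorem D_x : KaehlerDifferential.D 𝕜 (AK 𝕜 g) (ax 𝕜 g) ≠ 0 := by
  intro h
  obtain ⟨z, hz⟩ := exists_D_ne (AK_isCurve 𝕜 g)
  apply hz
  have hy := D_y 𝕜 g
  rw [h, smul_zero] at hy
  have hp : ∀ p : 𝕜[X], KaehlerDifferential.D 𝕜 (AK 𝕜 g) (Polynomial.aeval (ax 𝕜 g) p) = 0 := by
    intro p
    rw [Derivation.map_aeval, h, smul_zero]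
  have hr : ∀ a ∈ 𝕜⟮ax 𝕜 g⟯, KaehlerDifferential.D 𝕜 (AK 𝕜 g) a = 0 := by
    intro a ha
    obtain ⟨p, q, -, -, rfl⟩ := (mem_adj_iff (ax_transcendental 𝕜 g)).1 ha
    rw [Derivation.leibniz_div, hp, hp]
    simp
  obtain ⟨a, ha, b, hb, rfl⟩ := span_AK 𝕜 g z
  rw [map_add, Derivation.leibniz, hr a ha, hr b hb, hy]
  simp

theorem model : AS (ax 𝕜 g) (ay 𝕜 g) g (aι 𝕜 g) where
  curve := AK_isCurve 𝕜 g
  two := two_AK 𝕜 g
  dx := D_x 𝕜 g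
  eq := ay_eq 𝕜 g
  span := span_AK 𝕜 g
  inv_x := by
    change aι' 𝕜 g (algebraMap (RatFunc 𝕜) (AK 𝕜 g) RatFunc.X) = _
    rw [AlgHom.commutes]
    rfl
  inv_y := aι'_y 𝕜 g

theorem AK_genus : genus 𝕜 (AK 𝕜 g) = g := (model 𝕜 g).genus_eq

end Pool.Agent.TH126.KG
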