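import Pool.Agent.TH126.KG.Gen

/-!
Polynomials in a function and their values at the points (the proofs are those of
`Pool/Agent/Helper395/CS/Hyp.lean` of the starting repository, with the complex numbers replaced by
an algebraically closed field).
-/

open scoped WithZero Matrix Polynomial IntermediateField
open WithZero

set_option linter.unusedSectionVars false

namespace Pool.Agent.TH126.KG

open Pool.Agent.TH185.C

variable {𝕜 K : Type} [Field 𝕜] [IsAlgClosed 𝕜] [Field K] [Algebra 𝕜 K]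

theorem aeval_ne_zero {x : K} (hx : Transcendental 𝕜 x) {p : 𝕜[X]} (hp : p ≠ 0) :
    Polynomial.aeval x p ≠ 0 := fun h => hx ⟨p, hp, h⟩

theorem mem_adj {x : K} (p : 𝕜[X]) : Polynomial.aeval x p ∈ 𝕜⟮x⟯ :=
  IntermediateField.algebra_adjoin_le_adjoin 𝕜 _ (Polynomial.aeval_mem_adjoin_singleton 𝕜 x)

theorem mem_adj_iff {x : K} (hx : Transcendental 𝕜 x) {z : K} :
    z ∈ 𝕜⟮x⟯ ↔ ∃ p q : 𝕜[X], q ≠ 0 ∧ IsCoprime p q ∧
      z = Polynomial.aeval x p / Polynomial.aeval x q := by
  constructor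
  · intro hz
    obtain ⟨u, hu⟩ := (RatFunc.algEquivOfTranscendental x hx).surjective ⟨z, hz⟩
    refine ⟨u.num, u.denom, u.denom_ne_zero, u.isCoprime_num_denom, ?_⟩
    have := congrArg (fun w : 𝕜⟮x⟯ => (w : K)) hu
    simp only at this
    rw [← this, RatFunc.algEquivOfTranscendental_apply]
  · rintro ⟨p, q, -, -, rfl⟩
    exact div_mem (mem_adj p) (mem_adj q)

section local_at

variable {x : K} (hx : Transcendental 𝕜 x) {a : 𝕜} {v : Point 𝕜 K}
  (hv : v.val (x - algebraMap 𝕜 K a) < 1)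

include hv in
theorem val_x_le : v.val x ≤ 1 := by
  have h : x = (x - algebraMap 𝕜 K a) + algebraMap 𝕜 K a := by ring
  rw [h]
  exact Valuation.map_add_le _ hv.le (v.const_le a)

theorem aeval_le (h : v.val x ≤ 1) (p : 𝕜[X]) : v.val (Polynomial.aeval x p) ≤ 1 := by
  rw [Polynomial.aeval_eq_sum_range]
  refine Valuation.map_sum_le _ fun i _ => ?_
  rw [Algebra.smul_def, map_mul, map_pow]
  exact mul_le_one' (v.const_le _) (pow_le_one' h _)

include hv in
theorem aeval_sub_lt (p : 𝕜[X]) :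
    v.val (Polynomial.aeval x p - algebraMap 𝕜 K (p.eval a)) < 1 := by
  obtain ⟨q, hq⟩ := Polynomial.X_sub_C_dvd_sub_C_eval (a := a) (p := p)
  have h := congrArg (Polynomial.aeval x) hq
  simp only [map_sub, map_mul, Polynomial.aeval_C, Polynomial.aeval_X] at h
  rw [h, map_mul]
  exact (mul_le_of_le_one_right' (aeval_le (val_x_le hv) q)).trans_lt hv

include hv in
theorem aeval_lt_iff (p : 𝕜[X]) : v.val (Polynomial.aeval x p) < 1 ↔ p.eval a = 0 := by
  have h := aeval_sub_lt hv p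
  constructor
  · intro h1
    by_contra h2
    have h3 := Valuation.map_sub_lt v.val h1 h
    rw [sub_sub_cancel, v.const _ h2] at h3
    exact lt_irrefl _ h3
  · intro h1
    rwa [h1, map_zero, sub_zero] at h

include hv in
theorem aeval_eq_one (p : 𝕜[X]) (hp : p.eval a ≠ 0) : v.val (Polynomial.aeval x p) = 1 := by
  refine le_antisymm (aeval_le (val_x_le hv) p) (not_lt.1 fun h => hp ((aeval_lt_iff hv p).1 h))

include hv hx in
theorem ord_aeval (p : 𝕜[X]) (hp : p ≠ 0) :
    v.ord (Polynomial.aeval x p) = p.rootMultiplicity a * v.ord (x - algebraMap 𝕜 K a) := by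
  obtain ⟨q, hq, hnd⟩ := Polynomial.exists_eq_pow_rootMultiplicity_mul_and_not_dvd p hp a
  have hq0 : q ≠ 0 := by
    rintro rfl
    exact hnd (dvd_zero _)
  have hqa : q.eval a ≠ 0 := fun h => hnd (Polynomial.dvd_iff_isRoot.2 h)
  have hxa : x - algebraMap 𝕜 K a ≠ 0 := by
    have := aeval_ne_zero hx (Polynomial.X_sub_C_ne_zero a)
    simpa using this
  conv_lhs => rw [hq]
  rw [map_mul, map_pow, map_sub, Polynomial.aeval_X, Polynomial.aeval_C,
    v.ord_mul (pow_ne_zero _ hxa) (aeval_ne_zero hx hq0), v.ord_pow,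
    (v.val_eq_one_iff (aeval_ne_zero hx hq0)).1 (aeval_eq_one hv q hqa), add_zero]

include hv hx in
theorem ord_mem_adj {z : K} (hz : z ∈ 𝕜⟮x⟯) (hz0 : z ≠ 0) :
    ∃ m : ℤ, v.ord z = m * v.ord (x - algebraMap 𝕜 K a) := by
  obtain ⟨p, q, hq, -, rfl⟩ := (mem_adj_iff hx).1 hz
  have hp : p ≠ 0 := by
    rintro rfl
    simp at hz0
  refine ⟨(p.rootMultiplicity a : ℤ) - q.rootMultiplicity a, ?_⟩
  rw [div_eq_mul_inv, v.ord_mul (aeval_ne_zero hx hp) (inv_ne_zero (aeval_ne_zero hx hq)), v.ord_inv,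
    ord_aeval hx hv p hp, ord_aeval hx hv q hq]
  ring

end local_at

theorem exists_point (hK : IsCurve 𝕜 K) {x : K} (hx : KaehlerDifferential.D 𝕜 K x ≠ 0) (a : 𝕜) :
    ∃ v : Point 𝕜 K, v.val (x - algebraMap 𝕜 K a) < 1 := by
  have hxa : KaehlerDifferential.D 𝕜 K (x - algebraMap 𝕜 K a) ≠ 0 := by
    rw [map_sub, Derivation.map_algebraMap, sub_zero]
    exact hx
  obtain ⟨S, hS, hsum⟩ := zero_count_aux hK hxa
  have := hK.finiteDimensional (sep_of_D_ne hK hxa).1
  have hpos : 0 < Module.finrank 𝕜⟮x - algebraMap 𝕜 K a⟯ K := Module.finrank_pos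
  have hne : S.Nonempty := by
    rw [Finset.nonempty_iff_ne_empty]
    rintro rfl
    simp at hsum
    omega
  obtain ⟨v, hv⟩ := hne
  exact ⟨v, (hS v).1 hv⟩

theorem point_injective {x : K} {a b : 𝕜} {v : Point 𝕜 K} (ha : v.val (x - algebraMap 𝕜 K a) < 1)
    (hb : v.val (x - algebraMap 𝕜 K b) < 1) : a = b := by
  by_contra hab
  have h := Valuation.map_sub_lt v.val ha hb
  have h2 : x - algebraMap 𝕜 K a - (x - algebraMap 𝕜 K b) = algebraMap 𝕜 K (b - a) := by
    rw [map_sub]; ring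
  rw [h2, v.const _ (sub_ne_zero.2 (Ne.symm hab))] at h
  exact lt_irrefl _ h

/-- rational functions of `x` which are regular at finite distance are polynomials -/
theorem poly_of_regular (hK : IsCurve 𝕜 K) {x : K} (hD : KaehlerDifferential.D 𝕜 K x ≠ 0) {z : K}
    (hz : z ∈ 𝕜⟮x⟯) (hreg : ∀ v : Point 𝕜 K, v.val x ≤ 1 → v.val z ≤ 1) :
    ∃ p : 𝕜[X], z = Polynomial.aeval x p := by
  have hx := (sep_of_D_ne hK hD).1
  obtain ⟨p, q, hq, hpq, rfl⟩ := (mem_adj_iff hx).1 hz
  by_cases hdeg : q.degree = 0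
  · have hC := Polynomial.eq_C_of_degree_eq_zero hdeg
    refine ⟨Polynomial.C (q.coeff 0)⁻¹ * p, ?_⟩
    rw [map_mul, Polynomial.aeval_C]
    conv_lhs => rw [hC]
    rw [Polynomial.aeval_C, map_inv₀, div_eq_inv_mul]
  · exfalso
    obtain ⟨a, ha⟩ := IsAlgClosed.exists_root q hdeg
    obtain ⟨v, hv⟩ := exists_point hK hD a
    have h1 := (aeval_lt_iff hv q).2 ha
    have hpa : p.eval a ≠ 0 := by
      intro hpa
      obtain ⟨u, w, huw⟩ := hpq
      have := congrArg (Polynomial.eval a) huw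
      rw [Polynomial.eval_add, Polynomial.eval_mul, Polynomial.eval_mul, hpa, ha.eq_zero] at this
      simp at this
    have h2 := aeval_eq_one hv p hpa
    have h3 := hreg v (val_x_le hv)
    rw [map_div₀, h2] at h3
    have h4 : v.val (Polynomial.aeval x q) ≠ 0 := v.val_ne_zero (aeval_ne_zero hx hq)
    rw [div_le_iff₀ (zero_lt_iff.2 h4), one_mul] at h3
    exact absurd h1 (not_lt.2 h3)

/-- the order of a polynomial in `x` at infinity -/
theorem val_aeval_inf {x : K} {v : Point 𝕜 K} (hv : 1 < v.val x) (p : 𝕜[X]) (hp : p ≠ 0) :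
    v.val (Polynomial.aeval x p) = v.val x ^ p.natDegree := by
  have h1 : p = Polynomial.C p.leadingCoeff * Polynomial.X ^ p.natDegree + p.eraseLead := by
    rw [add_comm, Polynomial.C_mul_X_pow_eq_monomial, Polynomial.eraseLead_add_monomial_natDegree_leadingCoeff]
  have h2 : Polynomial.aeval x p = algebraMap 𝕜 K p.leadingCoeff * x ^ p.natDegree +
      Polynomial.aeval x p.eraseLead := by
    conv_lhs => rw [h1]
    simp
  have h3 : v.val (algebraMap 𝕜 K p.leadingCoeff * x ^ p.natDegree) = v.val x ^ p.natDegree := by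
    rw [map_mul, map_pow, v.const _ (Polynomial.leadingCoeff_ne_zero.2 hp), one_mul]
  have h4 : v.val (Polynomial.aeval x p.eraseLead) < v.val x ^ p.natDegree := by
    rw [Polynomial.aeval_eq_sum_range]
    have hpos : (0 : ℤᵐ⁰) < v.val x ^ p.natDegree := pow_pos (zero_lt_one.trans hv) _
    refine Valuation.map_sum_lt _ hpos.ne' fun i hi => ?_
    by_cases h0 : p.eraseLead.coeff i = 0
    · rw [h0, zero_smul, map_zero]
      exact hpos
    · rw [Algebra.smul_def, map_mul, map_pow, v.const _ h0, one_mul]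
      have hi2 : i < p.natDegree := by
        have h5 := Polynomial.le_natDegree_of_ne_zero h0
        rcases Polynomial.eraseLead_natDegree_lt_or_eraseLead_eq_zero p with h6 | h6
        · omega
        · rw [h6] at h0
          simp at h0
      exact pow_lt_pow_right₀ hv hi2
  rw [h2, Valuation.map_add_eq_of_lt_left _ (by rw [h3]; exact h4), h3]

end Pool.Agent.TH126.KG
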